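import Pool.Agent.Run7.h498.GZ.W6

/-!
# Zilber–Pink for planes with a triple point

Let `ℓ_0, …, ℓ_5` be linear forms in three variables with algebraic coefficients, and `V` the plane of
the points `(ℓ_1 / ℓ_0, …, ℓ_5 / ℓ_0)` of the torus of dimension five, or more generally the preimage
of this plane under an isogeny `z ↦ z ^ m`.  We suppose that no two of the six forms are proportional,
that no four of the six lines `ℓ_i = 0` of the projective plane are concurrent, and that there is a line
which contains exactly one triple point (a point on three of the six lines).  So there is at least one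
triple point; under the other conditions the existence of a triple point implies the last one, unless
the six lines are the sides of a complete quadrangle (this surface is the moduli space `M_{0,5}`).

The lines through a triple point are anomalous curves of `V`, so that the open anomalous set `V^oa` is
empty, and the theorems of Bombieri, Masser, Zannier on the intersections of planes with algebraic
subgroups, which are about `V^oa`, say nothing about `V`.

We show that there are finitely many special hypersurfaces `z ^ u = 1`, `u ≠ 0`, of the torus which
contain all atypical subvarieties of `V`: all irreducible subsets `X` of the intersection of `V` with a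
torsion coset `S` with `dim X > dim V + dim S - 5`.

## The proof

In suitable monomial coordinates, and up to a translation, `V` is the surface of the points
`(x, 1 - x, y, y - D(x), y - E(x))`, `D`, `E` polynomials of degree at most one.  The pencil of lines
through the triple point has three special members `x = 0, 1, ∞`, and `D(x)`, `E(x)`, `D(x) - E(x)` do
not vanish at one of them; at each of the other two one of the three may vanish.  By the generic point
of `X` one can suppose that `X` is a point; it satisfies three independent multiplicative relations.
So the vectors of the logarithms of its coordinates at the places lie in a plane.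

* Bounded height: if `x` has a large height, then there are places at which `x` is near to `0`, to `1`
  and to `∞`, and the vectors at the three places are balanced.  This implies that `y` is one of the
  monomials `x`, `1 - x`, `1`, `x (1 - x)`, `x / (1 - x)`, `(1 - x) / x`, times a number `η` of bounded
  height.  Then for a suitable one of the lines `y - D(x)` is a monomial times a polynomial in `x` with
  coefficients of bounded height which does not vanish at `0, 1, ∞`, and again the vectors are not
  balanced, but for finitely many values of `η`; these give fixed curves.  If the height of `x` is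
  bounded, then the height of `y` is bounded.
* The points lie on finitely many curves: at the complex places the absolute values of the coordinates
  lie on a real analytic curve of a plane: the determinant of Cayley and Menger of the points `0`,
  `D(x)`, `E(x)`, `y` vanishes.  By Siegel's lemma there is a polynomial `P (x, y)` with integral
  coefficients which is small at all of these points, so that the norm of `P (x, y)` is less than one.
* Curves: the theorem of Maurin, Bombieri, Masser and Zannier for the curves which are needed, in the
  form of the files `Y740`.
* Points which are not algebraic are specialised to algebraic points.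
-/

namespace Pool.Agent.Results.MP_b7926e_nt.Planes

open Pool.Agent.Results.MP_b7926e_nt.NoAtypical (coset idealOf dim)

/-- The determinant of three of the linear forms; it vanishes if and only if they are linearly
dependent. -/
noncomputable def det3 (ℓ : Fin 6 → Fin 3 → ℂ) (a b c : Fin 6) : ℂ :=
  Matrix.det (Matrix.of ![ℓ a, ℓ b, ℓ c])

/-- The preimage, under the isogeny `z ↦ z ^ m` of the torus of dimension five, of the plane of the
points `(ℓ_1 / ℓ_0, …, ℓ_5 / ℓ_0)`, where `ℓ_j (v)` is the sum of the `ℓ j c * v c`. -/
def plane (ℓ : Fin 6 → Fin 3 → ℂ) (m : Matrix (Fin 5) (Fin 5) ℤ) : Set (Fin 5 → ℂ) :=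
  {z | (∀ l, z l ≠ 0) ∧ ∃ v : Fin 3 → ℂ, ∑ c, ℓ 0 c * v c ≠ 0 ∧
    ∀ j : Fin 5, ∏ l, z l ^ m j l = (∑ c, ℓ j.succ c * v c) / ∑ c, ℓ 0 c * v c}

/-- **Zilber–Pink for planes with a triple point.**  `coset M η` is the torsion coset
`{z | z ^ b = η ^ b for all b in M}`, of dimension `5 - rank M`; `idealOf X` is the ideal
of the polynomials vanishing on `X`, `X` is irreducible if it is prime, and `dim X` is the
transcendence degree of its coordinate ring. -/
theorem result (ℓ : Fin 6 → Fin 3 → ℂ) (hℓ : ∀ i c, IsAlgebraic ℚ (ℓ i c))
    -- no two of the forms are proportional and no four of the lines `ℓ_i = 0` are concurrent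
    (h4 : ∀ a b c d : Fin 6, a ≠ b → a ≠ c → a ≠ d → b ≠ c → b ≠ d → c ≠ d →
      ¬ (det3 ℓ a b c = 0 ∧ det3 ℓ a b d = 0))
    -- the lines `i`, `j`, `k` are concurrent, and this is the only triple point on the line `i`
    (i j k : Fin 6) (hij : i ≠ j) (hik : i ≠ k) (hjk : j ≠ k) (h3 : det3 ℓ i j k = 0)
    (h1 : ∀ a b, a ≠ i → b ≠ i → a ≠ b → det3 ℓ i a b = 0 → (a = j ∨ a = k) ∧ (b = j ∨ b = k))
    -- an isogeny
    (m : Matrix (Fin 5) (Fin 5) ℤ) (hm : m.det ≠ 0) :
    ∃ U : Finset (Fin 5 → ℤ), (∀ u ∈ U, u ≠ 0) ∧
      ∀ (M : Submodule ℤ (Fin 5 → ℤ)) (η : Fin 5 → ℂ), (∃ m : ℕ, 0 < m ∧ ∀ i, η i ^ m = 1) →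
        ∀ X : Set (Fin 5 → ℂ), X ⊆ plane ℓ m → X ⊆ coset M η → (idealOf X).IsPrime →
          -- `dim X > 2 + dim S - 5`
          2 < dim X + (Module.finrank ℤ M : Cardinal) →
          ∃ u ∈ U, ∀ z ∈ X, ∏ l, z l ^ u l = 1 :=
  Run7.h498.GZ.planeC ℓ hℓ h4 i j k hij hik hjk h3 h1 m hm

end Pool.Agent.Results.MP_b7926e_nt.Planes
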