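import Pool.Agent.Run7.h972.AW.Base
import Pool.Agent.Results.MP_b7926e_nt.RandomOrbits

/-!
# MP_b7926e_nt: Zilber's conjecture for the translates of all subvarieties of tori along random orbits of
# affine maps

The starting result `RandomOrbits` (whose definitions are used) is about the translates of subvarieties
`V` of tori by monomials in the coordinates of the random orbit of a vector `v ≠ 0` under matrices of
determinant one which generate `SL_L(ℤ/q)`, `L ≥ 2`. Here the maps are affine and need not be invertible,
and there is one set of times for all `v`, `V`, `Γ`.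

Let `x ↦ A_j x + b_j`, `j ≤ m`, be a finite family of affine maps of `ℤ^L` (`AffineWalk`) which for all `q`
prime to some `M` are permutations of `(ℤ/q)^L` and generate a transitive group. The determinants of the
`A_j` are arbitrary nonzero integers. For instance, for `L = 1`: any finite family of maps
`x ↦ a_j x + b_j` of `ℤ`, `a_j ≠ 0`, two of which do not commute (`Run7.h972.AW.line_walk`), such as
`x ↦ 10 x + d` for the `d` in a set of at least two digits; in general `x ↦ B x + d` where `B` is a number
and `d` runs through vectors of digits whose differences span `ℚ^L` (then the orbits of `0` consist of the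
vectors of integers whose digits, read from the left, are chosen at random, for example the lattice
points of a Sierpinski gasket), or random walks on `ℤ^L`. For independent and uniformly distributed
indices `w 0, w 1, …` let `c_0 = v`, `c_(t+1) = A_(w t) c_t + b_(w t)`.

**Theorem.** There is a number `κ` for every irreducible subvariety `V` of a torus `(ℂ^×)^n`, such that the
following holds for all `L` and all families of affine maps of `ℤ^L` as above. For almost every `w` there
is ONE set `E` of times of density zero such that for ALL integral vectors `v`, ALL dimensions `n`, ALL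
irreducible subvarieties `V` of the torus `(ℂ^×)^n` over the complex numbers, ALL finitely generated
subgroups `Γ` of `ℂ^×`, and all but finitely many times `t` outside `E`: for all `s` with `κ s < L` and all
integral `L × n` matrices `e` such that no hyperplane through the origin contains more than `s` of the
rows, the translate `g V` of `V` by the vector `g_j = ∏_{l < L} c_{t,l} ^ e_{l j}` has no atypical subvariety
at all, more generally no atypical intersection with a coset `η H` of an algebraic subgroup `H` by a
point `η` whose coordinates are in the division hull of `Γ`.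

Proof. Outside a pronull set every coordinate `c_l` has a prime `p_l > D` which divides it exactly once
and divides no other coordinate (`Pool.Agent.N24.RW.t_ONE`); these are countably many conditions, one
for each `D`. By the ergodic theorem for walks on finite groups (`Pool.Agent.N24.RW.t_ERG`), applied to the
group of affine permutations of `(ℤ/q)^L`, the orbits visit pronull sets only at times of density zero
(`Run7.h972.AW`). The rest is the argument of the starting files `NoAtypical` and `RandomOrbits`
(`Pool.Agent.N712.ZT.translates`).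
-/

set_option autoImplicit false

namespace Pool.Agent.Results.MP_b7926e_nt.RandomAffineOrbits

open MvPolynomial MeasureTheory
open Pool.Agent.Results.MP_b7926e_nt.NoAtypical (idealOf)
open Pool.Agent.Results.MP_b7926e_nt.RandomOrbits (Good good_of_primes)
open Pool.Agent.N24.RW (words)
open Pool.Agent.N676.OR (DensityZero)
open Run7.h972.AW

open Classical in
/-- **Zilber's conjecture for the translates along random orbits of affine maps.** -/
theorem result : ∃ κ : (n : ℕ) → Set (Fin n → ℂ) → ℕ,
    ∀ (L : ℕ) (W : AffineWalk (Fin L)), ∀ᵐ w ∂(words W.m), ∃ E : Set ℕ, DensityZero E ∧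
      ∀ (v : Fin L → ℤ) (n : ℕ) (V : Set (Fin n → ℂ)), (idealOf V).IsPrime →
        ∀ Γ : Subgroup ℂˣ, Γ.FG →
          {t : ℕ | t ∉ E ∧ ¬ Good V Γ (κ n V) (aorb W v w t)}.Finite := by
  have hex : ∀ (n : ℕ) (V : Set (Fin n → ℂ)), ∃ κ : ℕ, (idealOf V).IsPrime →
      ∀ Γ : Subgroup ℂˣ, Γ.FG → ∃ D : ℕ, ∀ (L : ℕ) (c : Fin L → ℤ),
        (∀ l, ∃ p : ℕ, p.Prime ∧ D < p ∧ (p : ℤ) ∣ c l ∧ ¬ ((p : ℤ) ^ 2 ∣ c l) ∧
          ∀ j, j ≠ l → ¬ (p : ℤ) ∣ c j) → Good V Γ κ c := by
    intro n V
    by_cases hV : (idealOf V).IsPrime
    · obtain ⟨κ, hκ⟩ := Pool.Agent.N712.ZT.translates V hV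
      refine ⟨κ, fun _ Γ hΓ => ?_⟩
      obtain ⟨D, hD⟩ := hκ Γ hΓ
      exact ⟨D, fun L c hc => good_of_primes hD c hc⟩
    · exact ⟨0, fun h => absurd h hV⟩
  choose κ hκ using hex
  refine ⟨κ, fun L W => ?_⟩
  filter_upwards [one_set W (κ := ℕ) (fun D => {c : Fin L → ℤ | ¬ ∀ l : Fin L, ∃ p : ℕ, p.Prime ∧
    D < p ∧ (p : ℤ) ∣ c l ∧ ¬ ((p : ℤ) ^ 2 ∣ c l) ∧ ∀ j, j ≠ l → ¬ (p : ℤ) ∣ c j})
    (fun D => Pool.Agent.N24.RW.t_ONE Pool.Agent.N24.RW.t_CRIT Pool.Agent.N24.RW.t_CLO (Fin L) D)]
    with w hw
  obtain ⟨E, hE, h⟩ := hw
  refine ⟨E, hE, fun v n V hV Γ hΓ => ?_⟩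
  obtain ⟨D, hD⟩ := hκ n V hV Γ hΓ
  exact (h v D).subset fun t ht => ⟨ht.1, fun h2 => ht.2 (hD L _ h2)⟩

end Pool.Agent.Results.MP_b7926e_nt.RandomAffineOrbits
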