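import Pool.Agent.N712.ZT.Sets
import Pool.Agent.Run7.h823.WF.Exact
import Pool.Agent.Run7.h823.WF.Ex

/-!
# Zilber's conjecture for translates of all subvarieties of tori by products of the members of sparse families of vectors
# of residues: the first `m ^ ε` terms of linear recurrences modulo `m`

Let `n` be any dimension, `V` any irreducible subvariety of the torus `(ℂ^×)^n` (over the complex numbers, of any dimension
and degree), and `Γ` any finitely generated subgroup of `ℂ^×`. There is a number `κ`, which depends on `V` only, such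
that for all matrices `e` of integers with `L` rows of length `n`, such that no hyperplane through the
origin contains more than `s` of the rows, `κ s < L` (general position), the translates `g V` of `V` by the vectors

`g_j = ∏_{l < L} |v_l| ^ e_{l j}`

have no atypical subvarieties at all, more generally no atypical intersection with a coset `η H` of an algebraic subgroup
`H` by a point `η` whose coordinates are in the division hull of `Γ`, for all but `ε |s|` of the members of the following
families of vectors `v`: `v = c₀ + y_i`, where `y_i`, `i ∈ s`, is an arbitrary family of vectors of `L` residues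
modulo an integer `q` (represented by the least residues) whose Fourier coefficients at the nonzero frequencies are at most
`q ^ (-β)` times their number, `q` large.

The family can be very sparse: examples (of vectors with `r` coordinates) are

* the values `(u_1(n), …, u_r(n))`, `n < N`, of `r` linear recurrences modulo a prime `m` with linearly independent vectors
  of coefficients, as soon as `N ≥ m ^ ε` and the roots and their quotients have orders `≥ m ^ ε`;
* the vectors `(x_1 b_1 ^ n, …, x_r b_r ^ n)`, `n < N`, `N ≥ m ^ ε`, for fixed different integers `b_j ≥ 2` and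
  all `x_j ≠ 0`, modulo all but `C X ^ ε` of the primes `m ≤ X`.

In these examples only `m ^ ε` of the `m ^ r` vectors of the box occur.

From Mathlib: `ZMod.stdAddChar`: the additive character `j ↦ exp (2 π i j / q)` of the integers modulo `q`; `ZMod.val`: the
least residue.

In the starting results on translates the vectors run through boxes, residue classes, sequences of integer parts of
generalised polynomials, and random orbits and metric sequences.

Proof: as in the starting file `OneNullSet` (helper712); families with small Fourier coefficients are well distributed modulo all integers up to a power of `q`; the Fourier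
coefficients of short recurrences are estimated by the method of Bourgain, Glibichuk and Konyagin
(`Pool.Agent.Run7.h823.BK`).
-/

set_option autoImplicit false

namespace Pool.Agent.Results.MP_b7926e_nt.ResidueVectors

open MvPolynomial Finset
open Pool.Agent.Results.MP_b7926e_nt.NoAtypical (coset idealOf dim)

/-- The Fourier coefficients of the vectors of residues `y i`, `i ∈ s`, modulo `q` at the nonzero frequencies are at most
`η` times the number of the vectors: `|∑ i ∈ s, e(h·y_i / q)| ≤ η |s|` for all vectors `h ≠ 0` modulo `q`. -/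
def Flat {τ ι : Type} [Fintype ι] (q : ℕ) [NeZero q] (η : ℝ) (s : Finset τ) (y : τ → ι → ZMod q) : Prop :=
  ∀ h : ι → ZMod q, h ≠ 0 → ‖∑ i ∈ s, (ZMod.stdAddChar (∑ j, h j * y i j) : ℂ)‖ ≤ η * s.card

/-- The integral vector `c₀ + y_i`, with the least residues `0 ≤ y_i < q`. -/
def vec {τ ι : Type} {q : ℕ} (y : τ → ι → ZMod q) (c₀ : ι → ℤ) (i : τ) (j : ι) : ℤ := c₀ j + ((y i j).val : ℕ)

/-- The translate of `V` by the vector `g`. -/
def translate {n : ℕ} (g : Fin n → ℂ) (V : Set (Fin n → ℂ)) : Set (Fin n → ℂ) :=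
  {y | ∃ x ∈ V, ∀ i, y i = g i * x i}

/-- Every irreducible subset `A` of the intersection of `W` with a coset `η H` of an algebraic subgroup
`H`, such that a power of every coordinate of `η` is in `Γ`, satisfies `dim A ≤ dim W + dim H - n`, where
`dim H = n - rank M`. For `Γ = 1` this means that `W` has no atypical subvariety. -/
def NoAtypical {n : ℕ} (Γ : Subgroup ℂˣ) (W : Set (Fin n → ℂ)) : Prop :=
  ∀ (M : Submodule ℤ (Fin n → ℤ)) (η : Fin n → ℂ),
    (∀ i, ∃ m : ℕ, 0 < m ∧ ∃ γ ∈ Γ, η i ^ m = (γ : ℂ)) →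
    ∀ A : Set (Fin n → ℂ), A ⊆ W → A ⊆ coset M η → (idealOf A).IsPrime →
      dim A + (Module.finrank ℤ M : Cardinal) ≤ dim W

/-- At most `s` of the rows of `e` are orthogonal to a given nonzero vector. -/
def GeneralPosition {L n : ℕ} (s : ℕ) (e : Fin L → Fin n → ℤ) : Prop :=
  ∀ χ : Fin n → ℤ, χ ≠ 0 → {l | ∑ j, χ j * e l j = 0}.ncard ≤ s

/-- **Theorem.** (1) For every irreducible subvariety `V` of `(ℂ^×)^n` there is `κ` such that for all finitely generated
groups `Γ`, all `L × n` matrices `e` in general position (`κ s < L`), all `β, ε > 0`, all large `q`, all families `y_i`,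
`i ∈ t`, of vectors of `L` residues modulo `q` with Fourier coefficients at most `q ^ (-β) |t|`, and all integral vectors
`c₀`: for all but at most `ε |t|` of the members `v = c₀ + y_i` the translate of `V` by the vector
`(∏ l, |v_l| ^ e_{l j})_j` has no atypical intersections with the cosets `η H`, `η` in the division hull of `Γ`.

(2) Examples: short linear recurrences. (3) Examples: the first powers of fixed integers, modulo all but `C X ^ ε` of the
primes `m ≤ X`. -/
theorem result :
    (∀ (n : ℕ) (V : Set (Fin n → ℂ)), (idealOf V).IsPrime → ∃ κ : ℕ,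
      ∀ Γ : Subgroup ℂˣ, Γ.FG → ∀ L s : ℕ, κ * s < L → ∀ e : Fin L → Fin n → ℤ, GeneralPosition s e →
      ∀ β ε : ℝ, 0 < β → 0 < ε → ∃ q₀ : ℕ, ∀ (q : ℕ) [NeZero q], q₀ ≤ q →
      ∀ (τ : Type) (t : Finset τ) (y : τ → Fin L → ZMod q), Flat q ((q : ℝ) ^ (-β)) t y → ∀ c₀ : Fin L → ℤ,
      ({i : τ | i ∈ t ∧ ¬ NoAtypical Γ
        (translate (fun j => ∏ l : Fin L, ((vec y c₀ i l).natAbs : ℂ) ^ e l j) V)}.ncard : ℝ) ≤ ε * t.card) ∧
    (∀ (k : ℕ) (ε : ℝ), 0 < ε → ∃ β : ℝ, 0 < β ∧ ∃ m₀ : ℕ, ∀ (m : ℕ) [Fact m.Prime], m₀ ≤ m →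
      ∀ (ι : Type) [Fintype ι] (c : ι → Fin k → ZMod m) (g : Fin k → (ZMod m)ˣ) (N : ℕ), LinearIndependent (ZMod m) c →
      (∀ i, (m : ℝ) ^ ε ≤ orderOf (g i)) → (∀ i j, i ≠ j → (m : ℝ) ^ ε ≤ orderOf (g i / g j)) → (m : ℝ) ^ ε ≤ N →
      Flat m ((m : ℝ) ^ (-β)) (range N) (fun n j => ∑ i, c j i * (g i : ZMod m) ^ n)) ∧
    (∀ (ι : Type) [Fintype ι] (ε : ℝ), 0 < ε → ∃ β : ℝ, 0 < β ∧ ∀ b : ι → ℕ, (∀ j, 2 ≤ b j) → Function.Injective b →
      ∃ C : ℝ, ∀ X : ℕ, 1 ≤ X → ∀ Q : Finset ℕ,
      (∀ m ∈ Q, m ≤ X ∧ ∃ _ : Fact m.Prime, ¬ ∀ N : ℕ, (m : ℝ) ^ ε ≤ N → ∀ x : ι → ZMod m, (∀ j, x j ≠ 0) →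
        Flat m ((m : ℝ) ^ (-β)) (range N) (fun n j => x j * (b j : ZMod m) ^ n)) →
      (Q.card : ℝ) ≤ C * (X : ℝ) ^ ε) := by
  refine ⟨?_, fun k ε hε => Pool.Agent.Run7.h823.WF.flat_rec' k hε,
    fun ι _ ε hε => Pool.Agent.Run7.h823.WF.flat_pow' ι hε⟩
  intro n V hV
  obtain ⟨κ, hκ⟩ := Pool.Agent.N712.ZT.translates V hV
  refine ⟨κ, fun Γ hΓ L s hL e he β ε hβ hε => ?_⟩
  obtain ⟨D, hD⟩ := hκ Γ hΓ
  obtain ⟨q₀, h⟩ := Pool.Agent.Run7.h823.WF.Exa.residues (ι := Fin L) hβ D ε hε
  refine ⟨q₀, fun q _ hq τ t y hf c₀ => le_trans ?_ (h τ q hq t y c₀ hf)⟩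
  apply Pool.Agent.Run7.h823.WF.ncard_mono
  intro i _ ht hgood
  apply ht
  change ∀ l : Fin L, ∃ p : ℕ, p.Prime ∧ D < p ∧ Pool.Agent.Run7.h823.WF.Exa.Ex l p (vec y c₀ i) at hgood
  obtain ⟨value, hvalue⟩ : ∃ value : Fin L → ℕ, value = fun l => (vec y c₀ i l).natAbs := ⟨_, rfl⟩
  choose p hp1 hp2 hp3 hp4 hp5 using hgood
  -- the divisibilities for the absolute values
  have hd1 : ∀ l : Fin L, p l ∣ value l := fun l => by
    rw [hvalue]
    exact Int.natCast_dvd.mp (hp3 l)
  have hd2 : ∀ l : Fin L, ¬ p l ^ 2 ∣ value l := by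
    intro l hd
    apply hp4 l
    rw [hvalue] at hd
    have := Int.natCast_dvd.mpr hd
    push_cast at this
    exact this
  have hd3 : ∀ l l' : Fin L, l' ≠ l → ¬ p l ∣ value l' := fun l l' hl' hd =>
    hp5 l l' hl' (Int.natCast_dvd.mpr (by rw [hvalue] at hd; exact hd))
  have hne : ∀ l : Fin L, (value l : ℂ) ≠ 0 := by
    intro l h0
    apply hd2 l
    have h4 : value l = 0 := by exact_mod_cast h0
    rw [h4]
    exact dvd_zero _
  have hunit : ∀ (l : Fin L) (O : ValuationSubring ℂ), (p l : ℂ) ∈ O.nonunits →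
      ∀ k : ℕ, ¬ p l ∣ k → O.valuation (k : ℂ) = 1 := by
    intro l O hO k hk
    rw [ValuationSubring.mem_nonunits_iff] at hO
    have h4 : IsCoprime (k : ℤ) ((p l : ℕ) : ℤ) :=
      Nat.isCoprime_iff_coprime.2 (((hp1 l).coprime_iff_not_dvd.2 hk).symm)
    have h5 := Pool.Agent.H173R3.ZT.val_int_eq_one O hO h4
    simpa using h5
  have hgoal : NoAtypical Γ (translate (fun j => ∏ l : Fin L, (value l : ℂ) ^ e l j) V) := by
    intro M η hη A hAV hAT hA
    refine hD L s hL (fun l => p l) (fun l => ⟨hp1 l, ?_⟩) e he _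
      (fun j => Finset.prod_ne_zero_iff.2 fun l _ => zpow_ne_zero _ (hne l)) (fun i j O hO => ?_)
      M η hη A hAV hAT hA
    · exact hp2 l
    · rw [map_prod, Finset.prod_eq_single i]
      · rw [map_zpow₀]
        congr 1
        obtain ⟨k, hk⟩ := hd1 i
        have hk2 : ¬ p i ∣ k := by
          rintro ⟨r, hr⟩
          apply hd2 i
          rw [hk, hr]
          exact ⟨r, by ring⟩
        rw [hk]
        push_cast
        rw [map_mul, hunit i O hO k hk2, mul_one]
      · intro l _ hl
        rw [map_zpow₀, hunit i O hO _ (hd3 i l hl), one_zpow]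
      · intro hi
        exact absurd (Finset.mem_univ i) hi
  rw [hvalue] at hgoal
  exact hgoal

end Pool.Agent.Results.MP_b7926e_nt.ResidueVectors
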